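import Mathlib

set_option autoImplicit false

open Filter Topology Set MeasureTheory Metric
open scoped ENNReal NNReal Pointwise

namespace Pool.Agent.Results.MP_f72ff1_an.EndpointFails

/-- `ℝ^d` -/
abbrev E (d : ℕ) := EuclideanSpace ℝ (Fin d)

section
variable {V : Type} [NormedAddCommGroup V] [InnerProductSpace ℝ V] [FiniteDimensional ℝ V]
  [MeasurableSpace V] [BorelSpace V]

variable (V) in
/-- normalised surface measure on the unit sphere of a Euclidean space -/
noncomputable def sig : Measure (sphere (0 : V) 1) :=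
  (volume.toSphere (univ : Set (sphere (0 : V) 1)))⁻¹ • volume.toSphere

/-- the bilinear spherical average, over the unit sphere of the Euclidean space `V × V` -/
noncomputable def A (t : ℝ) (f g : V → ℝ) (x : V) : ℝ :=
  ∫ w, f (x - t • w.1.fst) * g (x - t • w.1.snd) ∂sig (WithLp 2 (V × V))

/-- the lacunary bilinear spherical maximal function -/
noncomputable def M (f g : V → ℝ) (x : V) : ℝ≥0∞ := ⨆ l : ℤ, ‖A (2 ^ l) f g x‖ₑ
end

/-- bounded measurable functions of bounded support -/
def Nice {d : ℕ} (f : E d → ℝ) : Prop := Measurable f ∧ ∃ R, ∀ x, |f x| ≤ R ∧ (R < ‖x‖ → f x = 0)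

/-- boundedness `L^p × L^q → L^r`, tested on nice functions only -/
def Bdd (d : ℕ) (p q r : ℝ) : Prop := ∃ C : ℝ≥0, ∀ f g : E d → ℝ, Nice f → Nice g →
  (∫⁻ x, M f g x ^ r) ^ (1 / r) ≤ C * eLpNorm f (.ofReal p) * eLpNorm g (.ofReal q)

theorem cone (d : ℕ) (e : E d) (he : ‖e‖ = 1) : ∃ κ : ℝ, 0 < κ ∧ ∀ t : ℝ, 1 ≤ t → ∀ x : E d,
    ‖x‖ ≤ t / 2 → .ofReal (κ / t ^ d) ≤
      sig (WithLp 2 (E d × E d)) {w | ‖x - t • w.1.fst‖ ≤ 1} := by
  have : Nontrivial (E d) := ⟨e, 0, by rintro rfl; simp at he⟩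
  set Z := volume.toSphere (univ : Set (sphere (0 : WithLp 2 (E d × E d)) 1))
  have Z1 : Z ≠ ∞ := measure_ne_top _ _
  have Z0 : Z ≠ 0 := by simp [Z, -Measure.toSphere_apply_univ]
  set ω := volume (ball (0 : E d) 1)
  have ω0 : ω ≠ 0 := (measure_ball_pos _ _ one_pos).ne'
  have ω1 : ω ≠ ∞ := measure_ball_lt_top.ne
  have := ENNReal.toReal_pos Z0 Z1
  have := ENNReal.toReal_pos ω0 ω1
  refine ⟨Z.toReal⁻¹ * ((1 / 8) ^ d * ω.toReal * ((1 / 8) ^ d * ω.toReal)), by positivity,
    fun t ht x hx => ?_⟩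
  have t0 : 0 < t := by linarith
  set a := t⁻¹ • x with ha
  have na : ‖a‖ ≤ 1 / 2 := by
    rw [ha, norm_smul, norm_inv, Real.norm_of_nonneg t0.le, inv_mul_le_iff₀ t0]; linarith
  have n0 := norm_nonneg a
  set β := √(1 - ‖a‖ ^ 2)
  have β2 : β ^ 2 = 1 - ‖a‖ ^ 2 := Real.sq_sqrt (by nlinarith)
  have β1 : 4 / 5 ≤ β := Real.le_sqrt_of_sq_le (by nlinarith)
  let U : Set (E d × E d) := {p | dist p.2 ((3 / 8 : ℝ) • e) < 1 / 8} ∩
    {p | dist p.1 ((‖p.2‖ / β) • a) < 1 / (8 * t)}
  have mU : MeasurableSet U := ((isOpen_lt (by fun_prop) continuous_const).inter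
    (isOpen_lt (by fun_prop) continuous_const)).measurableSet
  have vU : volume U = .ofReal ((1 / (8 * t)) ^ d) * ω * (.ofReal ((1 / 8) ^ d) * ω) := by
    rw [Measure.volume_eq_prod, Measure.prod_apply_symm mU, lintegral_congr (g := (ball
      ((3 / 8 : ℝ) • e) (1 / 8)).indicator fun _ => .ofReal ((1 / (8 * t)) ^ d) * ω),
      lintegral_indicator_const measurableSet_ball, Measure.addHaar_ball_of_pos _ _ (by norm_num),
      finrank_euclideanSpace_fin]
    intro v
    by_cases h : dist v ((3 / 8 : ℝ) • e) < 1 / 8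
    · have := Measure.addHaar_ball_of_pos volume ((‖v‖ / β) • a) (r := 1 / (8 * t)) (by positivity)
      rw [finrank_euclideanSpace_fin] at this
      rw [indicator_of_mem (mem_ball.2 h), ← this]
      congr 1; ext; simp only [U, mem_preimage, mem_inter_iff, mem_ofPred_eq, h, true_and, mem_ball]
    · rw [indicator_of_notMem (mem_ball.not.2 h)]
      convert measure_empty (μ := (volume : Measure (E d)))
      ext; simp only [U, mem_preimage, mem_inter_iff, mem_ofPred_eq, h, false_and, mem_empty_iff_false]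
  rw [sig, Measure.smul_apply, Measure.toSphere_apply' _ (isClosed_le (by fun_prop)
    continuous_const).measurableSet, smul_eq_mul]
  calc _ = Z⁻¹ * (1 * volume (WithLp.ofLp ⁻¹' U)) := by
        rw [(WithLp.volume_preserving_ofLp _ _).measure_preimage mU.nullMeasurableSet, vU,
          ← ENNReal.ofReal_toReal Z1, ← ENNReal.ofReal_toReal ω1, one_mul,
          ← ENNReal.ofReal_inv_of_pos (by positivity)]
        simp (disch := positivity) only [← ENNReal.ofReal_mul, ENNReal.toReal_ofReal]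
        congr 1; simp only [one_div, mul_inv, mul_pow, inv_pow]; ring
    _ ≤ _ := by
      gcongr
      · exact_mod_cast Module.finrank_pos
      rintro ⟨u, v⟩ ⟨h1, h2⟩
      simp only [mem_ofPred_eq, dist_eq_norm] at h1 h2
      have v1 := abs_lt.1 ((abs_norm_sub_norm_le _ _).trans_lt h1)
      rw [norm_smul, he, Real.norm_of_nonneg (by norm_num)] at v1
      set s := ‖v‖ / β with hs
      have s0 : 0 ≤ s := by positivity
      have s1 : s ≤ 5 / 8 := by rw [hs, div_le_iff₀ (by linarith)]; linarith [v1.2]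
      have w0 : ‖WithLp.toLp 2 (s • a, v)‖ = s := by
        rw [← pow_left_inj₀ (norm_nonneg _) s0 two_ne_zero, WithLp.prod_norm_sq_eq_of_L2]
        have : ‖v‖ = s * β := by rw [hs]; field_simp
        simp only [WithLp.toLp_fst, WithLp.toLp_snd, norm_smul, Real.norm_of_nonneg s0, this,
          mul_pow, β2]
        ring
      have w1 := abs_norm_sub_norm_le (WithLp.toLp 2 (u, v)) (WithLp.toLp 2 (s • a, v))
      rw [w0, ← WithLp.toLp_sub, Prod.mk_sub_mk, sub_self, WithLp.norm_toLp_fst] at w1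
      have w2 : ‖v‖ ≤ ‖WithLp.toLp 2 (u, v)‖ := WithLp.norm_snd_le _ (WithLp.toLp 2 (u, v))
      set n := ‖WithLp.toLp 2 (u, v)‖ with hn
      have ρ1 : 1 / (8 * t) ≤ 1 / 8 := by gcongr; linarith
      have n1 : 1 / 4 < n := by linarith [v1.1]
      have k := abs_le.1 w1
      refine ⟨n, ⟨by linarith, by linarith⟩, n⁻¹ • WithLp.toLp 2 (u, v), ⟨⟨_, ?_⟩, ?_, rfl⟩, ?_⟩
      · rw [mem_sphere_zero_iff_norm, norm_smul, norm_inv, norm_norm, inv_mul_cancel₀ (by linarith)]
      · have : x - t • n⁻¹ • u = (t / n) • ((n - s) • a - (u - s • a)) := by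
          have : x = t • a := by rw [ha, smul_inv_smul₀ t0.ne']
          rw [sub_smul, sub_sub_sub_cancel_right, smul_sub, smul_smul _ n,
            div_mul_cancel₀ _ (by linarith), div_eq_mul_inv, ← this, mul_smul]
        simp only [mem_ofPred_eq, WithLp.smul_fst, WithLp.toLp_fst, this]
        have b := norm_sub_le ((n - s) • a) (u - s • a)
        rw [norm_smul, Real.norm_eq_abs] at b
        rw [norm_smul, Real.norm_of_nonneg (by positivity), div_mul_eq_mul_div,
          div_le_one (by linarith)]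
        have : t * (1 / (8 * t)) = 1 / 8 := by field_simp
        have : |n - s| * ‖a‖ ≤ 1 / (8 * t) := by nlinarith [abs_nonneg (n - s)]
        nlinarith
      · exact smul_inv_smul₀ (by linarith) _

theorem fails (d : ℕ) (hd : 1 ≤ d) (q r : ℝ) (hq : 1 ≤ q) (hr : 1 / r = 1 + 1 / q) :
    ¬ Bdd d 1 q r := by
  rintro ⟨C, hC⟩
  have q0 : 0 < q := by linarith
  have r0 : 0 < r := one_div_pos.1 (hr ▸ by positivity)
  set e : E d := EuclideanSpace.single ⟨0, hd⟩ 1
  have he : ‖e‖ = 1 := by simp [e]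
  obtain ⟨κ, κ0, hκ⟩ := cone d e he
  have : Nontrivial (E d) := ⟨e, 0, fun h => by simp [h] at he⟩
  have : IsFiniteMeasure (sig (WithLp 2 (E d × E d))) := ⟨by
    rw [sig, Measure.smul_apply, smul_eq_mul, ENNReal.inv_mul_cancel
      (by simp [-Measure.toSphere_apply_univ]) (measure_ne_top _ _)]; simp⟩
  obtain ⟨ω, ω0, hω⟩ : ∃ ω : ℝ, 0 < ω ∧ ∀ (x : E d) ρ, 0 < ρ →
      volume (ball x ρ) = .ofReal (ρ ^ d * ω) := ⟨(volume (ball (0 : E d) 1)).toReal,
    ENNReal.toReal_pos (measure_ball_pos _ _ one_pos).ne' measure_ball_lt_top.ne, fun x ρ h => by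
      rw [Measure.addHaar_ball_of_pos _ _ h, finrank_euclideanSpace_fin, ENNReal.ofReal_mul
        (by positivity), ENNReal.ofReal_toReal measure_ball_lt_top.ne]⟩
  let c : ℕ → ℝ := fun k => ((2 ^ k) ^ d : ℝ) ^ (-(1 / q))
  have c0 : ∀ k, 0 < c k := fun k => by positivity
  have c1 : ∀ k, c k ≤ 1 := fun k => Real.rpow_le_one_of_one_le_of_nonpos
    (one_le_pow₀ (one_le_pow₀ one_le_two)) (by simp [q0.le])
  let f : E d → ℝ := (ball 0 2).indicator fun _ => 1
  let g : ℕ → E d → ℝ := fun N => ∑ k ∈ Finset.range N, (ball 0 (2 * 2 ^ k)).indicator fun _ => c k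
  have mf : Measurable f := measurable_const.indicator measurableSet_ball
  have mg : ∀ N, Measurable (g N) := fun N => by
    simp only [g, Finset.sum_fn]
    exact Finset.measurable_sum _ fun _ _ => measurable_const.indicator measurableSet_ball
  have f0 : ∀ x, 0 ≤ f x := fun x => indicator_nonneg (fun _ _ => zero_le_one) _
  have f1 : ∀ x, f x ≤ 1 := fun x => indicator_le_self' (fun _ _ => zero_le_one) _
  have g0 : ∀ N x, 0 ≤ g N x := fun N x => by
    simp only [g, Finset.sum_apply]
    exact Finset.sum_nonneg fun k _ => indicator_nonneg (fun _ _ => (c0 k).le) _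
  have g1 : ∀ N x, g N x ≤ N := fun N x => by
    simp only [g, Finset.sum_apply]
    exact (Finset.sum_le_card_nsmul _ _ 1 fun k _ =>
      (indicator_le_self' (fun _ _ => (c0 k).le) _).trans (c1 k)).trans (by simp)
  have low : ∀ N, ∀ k < N, ∀ x : E d, ‖x‖ ≤ 2 ^ k / 2 →
      .ofReal (κ ^ r / (2 ^ k) ^ d) ≤ M f (g N) x ^ r := fun N k hk x hx => by
    have : κ ^ r / (2 ^ k) ^ d = (c k * (κ / (2 ^ k) ^ d)) ^ r := by
      have : c k * (κ / (2 ^ k) ^ d) = κ * ((2 ^ k) ^ d : ℝ) ^ (-(1 / r)) := by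
        rw [hr, neg_add, Real.rpow_add (by positivity), Real.rpow_neg_one]; simp only [c]; ring
      rw [this, Real.mul_rpow κ0.le (by positivity), ← Real.rpow_mul (by positivity), neg_mul,
        one_div_mul_cancel r0.ne', Real.rpow_neg_one, div_eq_mul_inv]
    have p := c0 k
    rw [this, ← ENNReal.ofReal_rpow_of_pos (by positivity), ENNReal.ofReal_mul p.le]
    refine ENNReal.rpow_le_rpow (le_iSup_of_le (k : ℤ) ?_) r0.le
    rw [zpow_natCast, A, Real.enorm_eq_ofReal (integral_nonneg fun _ => mul_nonneg (f0 _) (g0 _ _)),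
      ofReal_integral_eq_lintegral_ofReal (.of_bound (Measurable.aestronglyMeasurable
        ((mf.fun_comp (Continuous.measurable (by fun_prop))).fun_mul ((mg N).fun_comp
          (Continuous.measurable (by fun_prop))))) N (.of_forall fun w => ?_))
        (.of_forall fun _ => mul_nonneg (f0 _) (g0 _ _))]
    · refine (mul_le_mul_right (hκ _ (one_le_pow₀ one_le_two) x hx) _).trans ?_
      rw [← lintegral_indicator_const (isClosed_le (by fun_prop) continuous_const).measurableSet]
      refine lintegral_mono (indicator_le fun w hw => ENNReal.ofReal_le_ofReal ?_)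
      have h1 : x - (2 : ℝ) ^ k • w.1.fst ∈ ball 0 2 :=
        mem_ball_zero_iff.2 (lt_of_le_of_lt hw one_lt_two)
      have h2 : x - (2 : ℝ) ^ k • w.1.snd ∈ ball 0 (2 * 2 ^ k) := mem_ball_zero_iff.2 (by
        have := norm_sub_le x ((2 : ℝ) ^ k • w.1.snd)
        have := (WithLp.norm_snd_le _ w.1).trans_eq (mem_sphere_zero_iff_norm.1 w.2)
        have : (0 : ℝ) < 2 ^ k := by positivity
        rw [norm_smul, Real.norm_of_nonneg this.le] at *
        nlinarith)
      simp only [f, g, indicator_of_mem h1, one_mul, Finset.sum_apply]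
      exact (indicator_of_mem h2 fun _ => c k).ge.trans (Finset.single_le_sum
        (f := fun j => (ball 0 (2 * 2 ^ j)).indicator (fun _ => c j) (x - (2 : ℝ) ^ k • w.1.snd))
        (fun k _ =>
        indicator_nonneg (fun _ _ => (c0 k).le) _) (Finset.mem_range.2 hk))
    · rw [Real.norm_of_nonneg (mul_nonneg (f0 _) (g0 _ _))]
      exact (mul_le_of_le_one_left (g0 _ _) (f1 _)).trans (g1 _ _)
  let D : ℕ → Set (E d) := fun k => ball ((3 / 8 * 2 ^ k : ℝ) • e) (2 ^ k / 8)
  have hD : ∀ k, ∀ x ∈ D k, 2 ^ k / 4 < ‖x‖ ∧ ‖x‖ < 2 ^ k / 2 := fun k x hx => by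
    have := abs_lt.1 ((abs_norm_sub_norm_le _ _).trans_lt (mem_ball_iff_norm.1 hx))
    rw [norm_smul, he, Real.norm_of_nonneg (by positivity)] at this
    constructor <;> linarith [this.1, this.2]
  have key : ∀ N : ℕ, (N * (κ ^ r * (1 / 8) ^ d * ω)) ^ (1 / r) ≤
      C * (2 ^ d * ω) * (N * (2 ^ d * ω) ^ (1 / q)) := fun N => by
    have h1 : ENNReal.ofReal (N * (κ ^ r * (1 / 8) ^ d * ω)) ≤ ∫⁻ x, M f (g N) x ^ r := by
      refine le_trans ?_ (setLIntegral_le_lintegral (⋃ k ∈ Finset.range N, D k) _)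
      rw [lintegral_biUnion_finset (fun i _ j _ h => ?_) fun _ _ => measurableSet_ball,
        ENNReal.ofReal_mul N.cast_nonneg, ENNReal.ofReal_natCast, ← nsmul_eq_mul]
      · nth_rewrite 1 [← Finset.card_range N]
        refine Finset.card_nsmul_le_sum _ _ _ fun k hk => le_trans (le_of_eq ?_)
          (setLIntegral_mono' measurableSet_ball fun x hx =>
            low N k (Finset.mem_range.1 hk) x (hD k x hx).2.le)
        rw [setLIntegral_const, hω _ _ (by positivity), ← ENNReal.ofReal_mul (by positivity)]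
        congr 1; simp only [div_pow, one_pow]; field_simp
      · wlog k : i < j generalizing i j
        · exact (this j ‹_› i ‹_› h.symm (by omega)).symm
        refine disjoint_left.2 fun x hi hj => ?_
        have := pow_le_pow_right₀ (one_le_two (α := ℝ)) (Nat.succ_le_of_lt k)
        rw [pow_succ] at this
        linarith [hD i x hi, hD j x hj]
    have h2 : eLpNorm f (.ofReal 1) = .ofReal (2 ^ d * ω) := by
      simp [f, eLpNorm_indicator_const measurableSet_ball, hω]
    have h3 : eLpNorm (g N) (.ofReal q) ≤ .ofReal (N * (2 ^ d * ω) ^ (1 / q)) := by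
      refine (eLpNorm_sum_le (fun _ _ => (measurable_const.indicator
        measurableSet_ball).aestronglyMeasurable) (by simpa using hq)).trans ?_
      rw [ENNReal.ofReal_mul N.cast_nonneg, ENNReal.ofReal_natCast, ← nsmul_eq_mul]
      nth_rewrite 2 [← Finset.card_range N]
      refine Finset.sum_le_card_nsmul _ _ _ fun k _ => le_of_eq ?_
      rw [eLpNorm_indicator_const measurableSet_ball (by simpa using q0) ENNReal.ofReal_ne_top,
        hω _ _ (by positivity), ENNReal.toReal_ofReal q0.le, Real.enorm_eq_ofReal (c0 k).le,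
        ENNReal.ofReal_rpow_of_pos (by positivity), ← ENNReal.ofReal_mul (c0 k).le, mul_pow,
        mul_right_comm, Real.mul_rpow (by positivity) (by positivity)]
      congr 1
      simp only [c]
      rw [Real.rpow_neg (by positivity)]
      field_simp
    have := (ENNReal.rpow_le_rpow h1 (by positivity)).trans ((hC f (g N) ⟨mf, 2, fun x =>
      ⟨by rw [abs_of_nonneg (f0 x)]; linarith [f1 x], fun h => indicator_of_notMem
        (by simpa using h.le) _⟩⟩ ⟨mg N, N + 2 * 2 ^ N, fun x => ⟨by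
          rw [abs_of_nonneg (g0 N x)]; exact (g1 N x).trans (by simp), fun h => ?_⟩⟩).trans
      (mul_le_mul' (mul_le_mul_right h2.le _) h3))
    · rwa [ENNReal.ofReal_rpow_of_nonneg (by positivity) (by positivity),
        ← ENNReal.ofReal_coe_nnreal, ← ENNReal.ofReal_mul (by positivity),
        ← ENNReal.ofReal_mul (by positivity), ENNReal.ofReal_le_ofReal_iff (by positivity)] at this
    · simp only [g, Finset.sum_apply]
      refine Finset.sum_eq_zero fun k hk => indicator_of_notMem ?_ _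
      have := pow_le_pow_right₀ (one_le_two (α := ℝ)) (Finset.mem_range.1 hk).le
      rw [mem_ball_zero_iff, not_lt]
      linarith [N.cast_nonneg (α := ℝ)]
  set a := κ ^ r * (1 / 8) ^ d * ω
  have a0 : 0 < a ^ (1 / r) := by positivity
  obtain ⟨N, h1, h2⟩ := ((eventually_gt_atTop 0).and ((((tendsto_rpow_atTop (one_div_pos.2 q0)).comp
    tendsto_natCast_atTop_atTop).atTop_mul_const a0).eventually_gt_atTop
      (C * (2 ^ d * ω) * (2 ^ d * ω) ^ (1 / q)))).exists
  have := key N
  have N0 : (0 : ℝ) < N := by exact_mod_cast h1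
  rw [Real.mul_rpow N0.le (by positivity)] at this
  nth_rewrite 1 [hr] at this
  rw [Real.rpow_add N0, Real.rpow_one] at this
  simp only [Function.comp] at h2
  nlinarith

theorem joint (d : ℕ) (hd : 1 ≤ d) :
    ¬ Bdd d 1 1 (1 / 2) ∧ (∀ ε : ℝ, 0 < ε → ¬ Bdd d 1 (1 + ε) ((1 + ε) / (2 + ε))) ∧
      ∀ q r : ℝ, 1 ≤ q → 1 / r = 1 + 1 / q → ¬ Bdd d 1 q r :=
  ⟨fails d hd _ _ le_rfl (by norm_num), fun ε h => fails d hd _ _ (by linarith)
    (by field_simp; ring), fails d hd⟩

theorem result (d : ℕ) (hd : 1 ≤ d) (q r : ℝ) (hq : 1 ≤ q) (hr : 1 / r = 1 + 1 / q) :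
    ¬ Bdd d 1 q r :=
  (joint d hd).2.2 q r hq hr

end Pool.Agent.Results.MP_f72ff1_an.EndpointFails
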